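import Pool.Agent.H122Z.AreaB

/-!
The periodic half space does not minimise Gaussian surface area among periodic sets with smooth
boundary: in dimension four a periodic set has strictly smaller Gaussian surface area.
-/

namespace Pool.Agent.Results.MP_b76267_pr.AFalse

open Pool.Agent.H122Z.Area

theorem result : ∃ Ω : Set (E 4), IsPeriodic Ω ∧ SmoothBoundary Ω ∧
    area Ω < area (halfSpace (fun _ : Fin 4 => (1 : ℝ))) :=
  main

end Pool.Agent.Results.MP_b76267_pr.AFalse
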